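import Pool.Agent.Y262.EX.Stm

/-!
# Project EX, job PROF: existence of the profile
-/

set_option autoImplicit false

open Set Filter Topology MeasureTheory Real
open scoped ContDiff

noncomputable section

namespace Pool.Agent.Y61.EX

/-- the argument of the cutoff -/
def hh (a y : ℝ) : ℝ := (4 * y ^ 2 - a ^ 2) / (3 * a ^ 2)

/-- the cutoff -/
def ss (a y : ℝ) : ℝ := Real.smoothTransition (hh a y)

def tt (l y : ℝ) : ℝ := l * Real.tan (l * y)

def t1 (l y : ℝ) : ℝ := l ^ 2 * (1 + Real.tan (l * y) ^ 2)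

def t2 (l y : ℝ) : ℝ := 2 * l ^ 3 * Real.tan (l * y) * (1 + Real.tan (l * y) ^ 2)

def ff (l y : ℝ) : ℝ := -Real.log (Real.cos (l * y))

def pp (a l y : ℝ) : ℝ := ss a y ^ 80 * tt l y

def gg (a l y : ℝ) : ℝ := ∫ t in (0 : ℝ)..y, pp a l t

def p1 (a l y : ℝ) : ℝ := 80 * ss a y ^ 79 * deriv (ss a) y * tt l y + ss a y ^ 80 * t1 l y

def rr (a l y : ℝ) : ℝ := 80 * 79 * deriv (ss a) y ^ 2 * tt l y +
  80 * ss a y * deriv (deriv (ss a)) y * tt l y + 160 * ss a y * deriv (ss a) y * t1 l y +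
    ss a y ^ 2 * t2 l y

section

variable {a l : ℝ}

theorem ss_contDiff : ContDiff ℝ ∞ (ss a) := by
  have h : ContDiff ℝ ∞ (hh a) := by
    unfold hh
    exact ((contDiff_const.mul (contDiff_id.pow 2)).sub contDiff_const).div_const _
  exact Real.smoothTransition.contDiff.comp h

theorem ss_d1 : ContDiff ℝ ∞ (deriv (ss a)) := (contDiff_infty_iff_deriv.1 ss_contDiff).2

theorem ss_d2 : ContDiff ℝ ∞ (deriv (deriv (ss a))) := (contDiff_infty_iff_deriv.1 ss_d1).2

theorem ss_nonneg (y : ℝ) : 0 ≤ ss a y := Real.smoothTransition.nonneg _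

theorem ss_zero_iff (ha : 0 < a) (y : ℝ) : ss a y = 0 ↔ |y| ≤ a / 2 := by
  unfold ss hh
  rw [Real.smoothTransition.zero_iff_nonpos, div_le_iff₀ (by positivity), zero_mul, sub_nonpos,
    abs_le]
  constructor
  · intro h
    have h1 : (2 * y) ^ 2 ≤ a ^ 2 := by nlinarith
    have h2 := abs_le_of_sq_le_sq' h1 ha.le
    constructor <;> linarith [h2.1, h2.2]
  · rintro ⟨h1, h2⟩
    nlinarith

theorem ss_one (ha : 0 < a) {y : ℝ} (hy : a ≤ |y|) : ss a y = 1 := by
  unfold ss hh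
  apply Real.smoothTransition.one_of_one_le
  rw [le_div_iff₀ (by positivity)]
  have : a ^ 2 ≤ y ^ 2 := by
    rw [← sq_abs y]
    exact pow_le_pow_left₀ ha.le hy 2
  linarith

theorem ss_neg (y : ℝ) : ss a (-y) = ss a y := by
  unfold ss hh
  rw [neg_sq]

theorem cos_pos_J (_ha : 0 < a) (hl : 0 < l) (hal : l * (4 * a) = π / 2) {y : ℝ}
    (hy : y ∈ Ioo (-(4 * a)) (4 * a)) : 0 < Real.cos (l * y) := by
  apply Real.cos_pos_of_mem_Ioo
  constructor
  · rw [← hal]
    nlinarith [hy.1]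
  · rw [← hal]
    nlinarith [hy.2]

theorem tan_deriv (y : ℝ) (hc : Real.cos (l * y) ≠ 0) :
    HasDerivAt (fun y => Real.tan (l * y)) (l * (1 + Real.tan (l * y) ^ 2)) y := by
  have h1 : HasDerivAt (fun y : ℝ => l * y) l y := by
    simpa using (hasDerivAt_id y).const_mul l
  have h2 := (Real.hasDerivAt_tan hc).comp y h1
  have h3 : (1 : ℝ) / Real.cos (l * y) ^ 2 = 1 + Real.tan (l * y) ^ 2 := by
    rw [Real.tan_eq_sin_div_cos]
    field_simp
    rw [Real.cos_sq_add_sin_sq]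
  exact h2.congr_deriv (by rw [h3]; ring)

theorem tt_deriv (y : ℝ) (hc : Real.cos (l * y) ≠ 0) : HasDerivAt (tt l) (t1 l y) y := by
  exact ((tan_deriv y hc).const_mul l).congr_deriv (by unfold t1; ring)

theorem t1_deriv (y : ℝ) (hc : Real.cos (l * y) ≠ 0) : HasDerivAt (t1 l) (t2 l y) y := by
  exact ((((tan_deriv y hc).pow 2).const_add 1).const_mul (l ^ 2)).congr_deriv (by
    unfold t2; push_cast; ring)

theorem ff_deriv (y : ℝ) (hc : 0 < Real.cos (l * y)) : HasDerivAt (ff l) (tt l y) y := by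
  have h1 : HasDerivAt (fun y : ℝ => l * y) l y := by
    simpa using (hasDerivAt_id y).const_mul l
  have h2 : HasDerivAt (fun y => Real.cos (l * y)) (-Real.sin (l * y) * l) y :=
    (Real.hasDerivAt_cos (l * y)).comp y h1
  exact (h2.log hc.ne').neg.congr_deriv (by
    unfold tt
    rw [Real.tan_eq_sin_div_cos]
    field_simp)

theorem pp_deriv (y : ℝ) (hc : Real.cos (l * y) ≠ 0) : HasDerivAt (pp a l) (p1 a l y) y := by
  have hs : HasDerivAt (ss a) (deriv (ss a) y) y :=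
    ((ss_contDiff.differentiable (by simp)) y).hasDerivAt
  exact ((hs.pow 80).mul (tt_deriv y hc)).congr_deriv (by
    unfold p1
    simp only [Pi.pow_apply]
    push_cast
    ring)

theorem p1_deriv (y : ℝ) (hc : Real.cos (l * y) ≠ 0) :
    HasDerivAt (p1 a l) (ss a y ^ 78 * rr a l y) y := by
  have hs : HasDerivAt (ss a) (deriv (ss a) y) y :=
    ((ss_contDiff.differentiable (by simp)) y).hasDerivAt
  have hs2 : HasDerivAt (deriv (ss a)) (deriv (deriv (ss a)) y) y :=
    ((ss_d1.differentiable (by simp)) y).hasDerivAt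
  exact (((((hs.pow 79).const_mul 80).mul hs2).mul (tt_deriv y hc)).add
    ((hs.pow 80).mul (t1_deriv y hc))).congr_deriv (by
    unfold rr
    simp only [Pi.mul_apply, Pi.pow_apply]
    push_cast
    ring)

theorem tt_sign (_ha : 0 < a) (hl : 0 < l) (hal : l * (4 * a) = π / 2) {y : ℝ}
    (hy : y ∈ Ioo (-(4 * a)) (4 * a)) : 0 ≤ y * tt l y := by
  unfold tt
  rcases le_total 0 y with h | h
  · have : 0 ≤ Real.tan (l * y) := by
      apply Real.tan_nonneg_of_nonneg_of_le_pi_div_two (by positivity)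
      rw [← hal]
      nlinarith [hy.2]
    positivity
  · have h1 : Real.tan (l * y) ≤ 0 := by
      apply Real.tan_nonpos_of_nonpos_of_neg_pi_div_two_le (by nlinarith)
      rw [← hal]
      nlinarith [hy.1]
    have h2 : l * Real.tan (l * y) ≤ 0 := mul_nonpos_of_nonneg_of_nonpos hl.le h1
    exact mul_nonneg_of_nonpos_of_nonpos h h2

theorem ds_tt (ha : 0 < a) (hl : 0 < l) (hal : l * (4 * a) = π / 2) {y : ℝ}
    (hy : y ∈ Ioo (-(4 * a)) (4 * a)) : 0 ≤ deriv (ss a) y * tt l y := by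
  have h1 : HasDerivAt (hh a) (8 * y / (3 * a ^ 2)) y := by
    exact (((((hasDerivAt_id y).pow 2).const_mul 4).sub_const (a ^ 2)).div_const
      (3 * a ^ 2)).congr_deriv (by simp; ring)
  have h2 : HasDerivAt Real.smoothTransition (deriv Real.smoothTransition (hh a y)) (hh a y) :=
    (((Real.smoothTransition.contDiff (n := 1)).differentiable (by simp)) _).hasDerivAt
  have h3 : deriv (ss a) y = deriv Real.smoothTransition (hh a y) * (8 * y / (3 * a ^ 2)) :=
    (h2.comp y h1).deriv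
  have h4 : 0 ≤ deriv Real.smoothTransition (hh a y) := Real.smoothTransition.monotone.deriv_nonneg
  rw [h3]
  have h5 := tt_sign ha hl hal hy
  have e : deriv Real.smoothTransition (hh a y) * (8 * y / (3 * a ^ 2)) * tt l y =
      deriv Real.smoothTransition (hh a y) * (8 / (3 * a ^ 2)) * (y * tt l y) := by ring
  rw [e]
  positivity

theorem p1_ge (ha : 0 < a) (hl : 0 < l) (hal : l * (4 * a) = π / 2) {y : ℝ}
    (hy : y ∈ Ioo (-(4 * a)) (4 * a)) : l ^ 2 * ss a y ^ 80 ≤ p1 a l y := by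
  have h1 := ds_tt ha hl hal hy
  have h2 := ss_nonneg (a := a) y
  have h3 : 0 ≤ 80 * ss a y ^ 79 * (deriv (ss a) y * tt l y) := by positivity
  have h4 : l ^ 2 ≤ t1 l y := by
    unfold t1
    nlinarith [mul_nonneg (sq_nonneg l) (sq_nonneg (Real.tan (l * y)))]
  have h5 : ss a y ^ 80 * l ^ 2 ≤ ss a y ^ 80 * t1 l y :=
    mul_le_mul_of_nonneg_left h4 (by positivity)
  unfold p1
  linarith

theorem tan_contOn (ha : 0 < a) (hl : 0 < l) (hal : l * (4 * a) = π / 2) :
    ContDiffOn ℝ ∞ (fun y => Real.tan (l * y)) (Ioo (-(4 * a)) (4 * a)) := by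
  intro y hy
  have hc := (cos_pos_J ha hl hal hy).ne'
  have h1 : ContDiffAt ℝ ∞ (fun y : ℝ => l * y) y := (contDiff_const.mul contDiff_id).contDiffAt
  exact ((Real.contDiffAt_tan.2 hc).comp y h1).contDiffWithinAt

theorem pp_contDiffOn (ha : 0 < a) (hl : 0 < l) (hal : l * (4 * a) = π / 2) :
    ContDiffOn ℝ ∞ (pp a l) (Ioo (-(4 * a)) (4 * a)) := by
  unfold pp tt
  exact (ss_contDiff.pow 80).contDiffOn.mul (contDiffOn_const.mul (tan_contOn ha hl hal))

theorem gg_deriv (ha : 0 < a) (hl : 0 < l) (hal : l * (4 * a) = π / 2) {y : ℝ}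
    (hy : y ∈ Ioo (-(4 * a)) (4 * a)) : HasDerivAt (gg a l) (pp a l y) y := by
  have hc := (pp_contDiffOn ha hl hal).continuousOn
  have h0 : (0 : ℝ) ∈ Ioo (-(4 * a)) (4 * a) := ⟨by linarith, by linarith⟩
  have hsub : uIcc 0 y ⊆ Ioo (-(4 * a)) (4 * a) := by
    intro z hz
    rw [mem_uIcc] at hz
    rcases hz with hz | hz
    · exact ⟨by linarith [hz.1], by linarith [hz.2, hy.2]⟩
    · exact ⟨by linarith [hz.1, hy.1], by linarith [hz.2]⟩
  exact intervalIntegral.integral_hasDerivAt_right (hc.mono hsub).intervalIntegrable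
    (hc.stronglyMeasurableAtFilter isOpen_Ioo y hy) (hc.continuousAt (isOpen_Ioo.mem_nhds hy))

theorem gg_contDiffOn (ha : 0 < a) (hl : 0 < l) (hal : l * (4 * a) = π / 2) :
    ContDiffOn ℝ ∞ (gg a l) (Ioo (-(4 * a)) (4 * a)) := by
  rw [contDiffOn_infty_iff_deriv_of_isOpen isOpen_Ioo]
  refine ⟨fun y hy => (gg_deriv ha hl hal hy).differentiableAt.differentiableWithinAt, ?_⟩
  exact (pp_contDiffOn ha hl hal).congr fun y hy => (gg_deriv ha hl hal hy).deriv

theorem gg_d2 (ha : 0 < a) (hl : 0 < l) (hal : l * (4 * a) = π / 2) {y : ℝ}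
    (hy : y ∈ Ioo (-(4 * a)) (4 * a)) : deriv (deriv (gg a l)) y = p1 a l y := by
  have h : deriv (gg a l) =ᶠ[𝓝 y] pp a l := by
    filter_upwards [isOpen_Ioo.mem_nhds hy] with z hz
    exact (gg_deriv ha hl hal hz).deriv
  rw [h.deriv_eq]
  exact (pp_deriv y (cos_pos_J ha hl hal hy).ne').deriv

theorem gg_d3 (ha : 0 < a) (hl : 0 < l) (hal : l * (4 * a) = π / 2) {y : ℝ}
    (hy : y ∈ Ioo (-(4 * a)) (4 * a)) :
    deriv (deriv (deriv (gg a l))) y = ss a y ^ 78 * rr a l y := by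
  have h : deriv (deriv (gg a l)) =ᶠ[𝓝 y] p1 a l := by
    filter_upwards [isOpen_Ioo.mem_nhds hy] with z hz
    exact gg_d2 ha hl hal hz
  rw [h.deriv_eq]
  exact (p1_deriv y (cos_pos_J ha hl hal hy).ne').deriv

theorem gg_flat (ha : 0 < a) {y : ℝ} (hy : |y| ≤ a / 2) : gg a l y = 0 := by
  unfold gg
  have h : ∀ t ∈ uIcc 0 y, pp a l t = (fun _ => (0 : ℝ)) t := by
    intro t ht
    have h1 : |t| ≤ a / 2 := by
      rw [mem_uIcc] at ht
      rw [abs_le] at hy ⊢
      rcases ht with ht | ht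
      · constructor <;> linarith [ht.1, ht.2, hy.1, hy.2]
      · constructor <;> linarith [ht.1, ht.2, hy.1, hy.2]
    unfold pp
    rw [(ss_zero_iff ha t).2 h1]
    simp
  rw [intervalIntegral.integral_congr h]
  simp

theorem gg_even (y : ℝ) : gg a l (-y) = gg a l y := by
  unfold gg
  have h1 := intervalIntegral.integral_comp_neg (a := 0) (b := y) (pp a l)
  have h2 : ∀ t, pp a l (-t) = -pp a l t := by
    intro t
    unfold pp tt
    rw [ss_neg, mul_neg, Real.tan_neg]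
    ring
  simp only [h2, intervalIntegral.integral_neg, neg_zero] at h1
  rw [intervalIntegral.integral_symm (-y) 0]
  linarith

theorem ff_even (y : ℝ) : ff l (-y) = ff l y := by
  unfold ff
  rw [mul_neg, Real.cos_neg]

theorem gg_hyp (ha : 0 < a) (hl : 0 < l) (hal : l * (4 * a) = π / 2) {y : ℝ}
    (hy : y ∈ Ioo (-(4 * a)) (4 * a)) (hay : a ≤ |y|) :
    gg a l y = ff l y + (gg a l a - ff l a) := by
  have key : ∀ z, a ≤ z → z < 4 * a → gg a l z = ff l z + (gg a l a - ff l a) := by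
    intro z hz1 hz2
    have hc := (pp_contDiffOn ha hl hal).continuousOn
    have hi : ∀ u v, u ∈ Ioo (-(4 * a)) (4 * a) → v ∈ Ioo (-(4 * a)) (4 * a) →
        IntervalIntegrable (pp a l) volume u v := by
      intro u v hu hv
      apply (hc.mono ?_).intervalIntegrable
      intro w hw
      rw [mem_uIcc] at hw
      rcases hw with hw | hw
      · exact ⟨by linarith [hw.1, hu.1], by linarith [hw.2, hv.2]⟩
      · exact ⟨by linarith [hw.1, hv.1], by linarith [hw.2, hu.2]⟩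
    have m0 : (0 : ℝ) ∈ Ioo (-(4 * a)) (4 * a) := ⟨by linarith, by linarith⟩
    have ma : a ∈ Ioo (-(4 * a)) (4 * a) := ⟨by linarith, by linarith⟩
    have mz : z ∈ Ioo (-(4 * a)) (4 * a) := ⟨by linarith, hz2⟩
    have h1 : gg a l a + ∫ t in a..z, pp a l t = gg a l z :=
      intervalIntegral.integral_add_adjacent_intervals (hi 0 a m0 ma) (hi a z ma mz)
    have h2 : ∫ t in a..z, pp a l t = ff l z - ff l a := by
      apply intervalIntegral.integral_eq_sub_of_hasDerivAt _ (hi a z ma mz)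
      intro t ht
      rw [uIcc_of_le hz1] at ht
      have h3 := ff_deriv (l := l) t (cos_pos_J ha hl hal ⟨by linarith [ht.1], by
        linarith [ht.2]⟩)
      have h4 : pp a l t = tt l t := by
        unfold pp
        rw [ss_one ha (ht.1.trans (le_abs_self t))]
        simp
      rw [h4]
      exact h3
    rw [← h1, h2]
    ring
  rcases le_total 0 y with h | h
  · rw [abs_of_nonneg h] at hay
    exact key y hay hy.2
  · rw [abs_of_nonpos h] at hay
    have := key (-y) hay (by linarith [hy.1])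
    rwa [gg_even, ff_even] at this

theorem gg_der (ha : 0 < a) (hl : 0 < l) (hal : l * (4 * a) = π / 2) : ∃ C : ℝ, ∀ y : ℝ,
    |y| ≤ 2 * a → |deriv (deriv (deriv (gg a l))) y| ≤
      C * (deriv (deriv (gg a l)) y) ^ (39 / 40 : ℝ) := by
  have hsub : Icc (-(2 * a)) (2 * a) ⊆ Ioo (-(4 * a)) (4 * a) := fun y hy =>
    ⟨by linarith [hy.1], by linarith [hy.2]⟩
  have htan : ContinuousOn (fun y => Real.tan (l * y)) (Icc (-(2 * a)) (2 * a)) :=
    ((tan_contOn ha hl hal).continuousOn).mono hsub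
  have c0 : ContinuousOn (ss a) (Icc (-(2 * a)) (2 * a)) := ss_contDiff.continuous.continuousOn
  have c1 : ContinuousOn (deriv (ss a)) (Icc (-(2 * a)) (2 * a)) :=
    ss_d1.continuous.continuousOn
  have c2 : ContinuousOn (deriv (deriv (ss a))) (Icc (-(2 * a)) (2 * a)) :=
    ss_d2.continuous.continuousOn
  have hr : ContinuousOn (rr a l) (Icc (-(2 * a)) (2 * a)) := by
    unfold rr tt t1 t2
    fun_prop
  obtain ⟨R, hR⟩ := isCompact_Icc.exists_bound_of_continuousOn hr
  refine ⟨R * (l ^ 2)⁻¹ ^ (39 / 40 : ℝ), ?_⟩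
  intro y hy
  have hy1 : y ∈ Icc (-(2 * a)) (2 * a) := abs_le.1 hy
  have hyJ := hsub hy1
  have hs := ss_nonneg (a := a) y
  rw [gg_d3 ha hl hal hyJ, gg_d2 ha hl hal hyJ, abs_mul, abs_of_nonneg (by positivity)]
  have h1 := p1_ge ha hl hal hyJ
  have hRy := hR y hy1
  rw [Real.norm_eq_abs] at hRy
  have hR0 : 0 ≤ R := (abs_nonneg _).trans hRy
  have h2 : ss a y ^ 80 ≤ (l ^ 2)⁻¹ * p1 a l y := by
    rw [inv_mul_eq_div, le_div_iff₀ (by positivity)]
    linarith
  have h3 : ss a y ^ 78 ≤ (l ^ 2)⁻¹ ^ (39 / 40 : ℝ) * p1 a l y ^ (39 / 40 : ℝ) := by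
    have hp : 0 ≤ p1 a l y := le_trans (by positivity) h1
    rw [← Real.mul_rpow (by positivity) hp]
    calc ss a y ^ 78 = (ss a y ^ 80) ^ (39 / 40 : ℝ) := by
          rw [← Real.rpow_natCast, ← Real.rpow_natCast, ← Real.rpow_mul hs]
          norm_num
      _ ≤ _ := Real.rpow_le_rpow (by positivity) h2 (by norm_num)
  calc ss a y ^ 78 * |rr a l y| ≤
        ((l ^ 2)⁻¹ ^ (39 / 40 : ℝ) * p1 a l y ^ (39 / 40 : ℝ)) * R := by
        apply mul_le_mul h3 hRy (abs_nonneg _)
        exact le_trans (by positivity) h3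
    _ = _ := by ring

end

open Pool.Agent.Y262.EX in
theorem prof (hW : StW) : StProf := by
  obtain ⟨ha, hl, -⟩ := hW
  have hal : lam * (4 * L0) = π / 2 := by
    unfold lam
    field_simp
    ring
  have hJ : ∀ x : ℝ, x ∈ Ioo (-(7 / 2 * L0)) (9 / 2 * L0) ↔
      x - L0 / 2 ∈ Ioo (-(4 * L0)) (4 * L0) := by
    intro x
    constructor
    · rintro ⟨h1, h2⟩
      exact ⟨by linarith, by linarith⟩
    · rintro ⟨h1, h2⟩
      exact ⟨by linarith, by linarith⟩
  obtain ⟨C, hC⟩ := gg_der ha hl hal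
  obtain ⟨g, hg⟩ : ∃ g : ℝ → ℝ, g = fun x => gg L0 lam (x - L0 / 2) := ⟨_, rfl⟩
  have hd1 : deriv g = fun x => deriv (gg L0 lam) (x - L0 / 2) := by
    funext x
    rw [hg]
    exact deriv_comp_sub_const (gg L0 lam) (L0 / 2) x
  have hd2 : deriv (deriv g) = fun x => deriv (deriv (gg L0 lam)) (x - L0 / 2) := by
    funext x
    rw [hd1]
    exact deriv_comp_sub_const (deriv (gg L0 lam)) (L0 / 2) x
  have hd3 : deriv (deriv (deriv g)) =
      fun x => deriv (deriv (deriv (gg L0 lam))) (x - L0 / 2) := by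
    funext x
    rw [hd2]
    exact deriv_comp_sub_const (deriv (deriv (gg L0 lam))) (L0 / 2) x
  refine ⟨g, gg L0 lam L0 - ff lam L0, C, ?_, ?_, ?_, ?_, ?_, ?_⟩
  · rw [hg]
    exact (gg_contDiffOn ha hl hal).comp (contDiff_id.sub contDiff_const).contDiffOn
      (fun x hx => (hJ x).1 hx)
  · intro x h0 h1
    rw [hg]
    exact gg_flat ha (abs_le.2 ⟨by linarith, by linarith⟩)
  · intro x hx hax
    rw [hg]
    exact gg_hyp ha hl hal ((hJ x).1 hx) hax
  · intro x hx
    rw [hd2]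
    have h1 := (hJ x).1 hx
    show 0 ≤ deriv (deriv (gg L0 lam)) (x - L0 / 2)
    rw [gg_d2 ha hl hal h1]
    exact le_trans (by have := ss_nonneg (a := L0) (x - L0 / 2); positivity) (p1_ge ha hl hal h1)
  · intro x hx h0
    rw [hd2] at h0
    have h1 := (hJ x).1 hx
    change deriv (deriv (gg L0 lam)) (x - L0 / 2) = 0 at h0
    rw [gg_d2 ha hl hal h1] at h0
    have h2 := p1_ge ha hl hal h1
    rw [h0] at h2
    have h3 := ss_nonneg (a := L0) (x - L0 / 2)
    have h4 : ss L0 (x - L0 / 2) = 0 := by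
      by_contra hne
      have : 0 < ss L0 (x - L0 / 2) := lt_of_le_of_ne h3 (Ne.symm hne)
      have : 0 < lam ^ 2 * ss L0 (x - L0 / 2) ^ 80 := by positivity
      linarith
    have h5 := abs_le.1 ((ss_zero_iff ha _).1 h4)
    constructor <;> linarith [h5.1, h5.2]
  · intro x hx
    rw [hd3, hd2]
    exact hC (x - L0 / 2) hx

end Pool.Agent.Y61.EX
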